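import Pool.Agent.Work.MP_7e30a6_pr.Final

open MeasureTheory ProbabilityTheory Filter
open scoped ENNReal

namespace Pool.Agent.Work.MP_7e30a6_pr

/-- edges of `H` with exactly one endpoint in `K` -/
def eBd {V : Type*} {G : SimpleGraph V} (H : G.Subgraph) (K : Set V) : Set (Sym2 V) :=
  {e | e ∈ H.edgeSet ∧ ∃ x ∈ K, ∃ y, y ∉ K ∧ e = s(x, y)}

lemma valid_drop (l : List ℕ) (h : Valid l) (k : ℕ) : Valid (l.drop k) := by
  induction k generalizing l with
  | zero => simpa using h
  | succ k ih =>
    cases l with
    | nil => simpa using h
    | cons c l => simpa using ih l h.2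

/-- ancestor at level `i` -/
def anc (u : T) (i : ℕ) : T := ⟨u.1.drop (u.1.length - i), valid_drop _ u.2 _⟩

lemma anc_length (u : T) (i : ℕ) (h : i ≤ u.1.length) : (anc u i).1.length = i := by
  simp only [anc, List.length_drop]; omega

lemma anc_self (u : T) : anc u u.1.length = u := Subtype.ext (by simp [anc])

lemma anc_anc (u : T) (a b : ℕ) (hb : b ≤ a) (ha : a ≤ u.1.length) : anc (anc u a) b = anc u b := by
  apply Subtype.ext
  have h1 := anc_length u a ha
  change (anc u a).1.drop ((anc u a).1.length - b) = u.1.drop (u.1.length - b)
  rw [h1]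
  change (u.1.drop (u.1.length - a)).drop (a - b) = _
  rw [List.drop_drop]
  congr 1
  omega

lemma anc_child (u : T) (c : Fin (br u.1.length)) (i : ℕ) (h : i ≤ u.1.length) :
    anc (child u c) i = anc u i := by
  have h1 : anc (child u c) u.1.length = u := by
    apply Subtype.ext
    simp [anc, child]
  rw [← anc_anc (child u c) u.1.length i h (by simp [child]), h1]

lemma finite_level (L : ℕ) : {u : T | u.1.length = L}.Finite := by
  induction L with
  | zero =>
    refine (Set.finite_singleton rt).subset ?_
    intro u hu
    simp only [Set.mem_ofPred_eq, List.length_eq_zero_iff] at hu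
    exact Subtype.ext hu
  | succ L ih =>
    have : {u : T | u.1.length = L + 1} ⊆ ⋃ x ∈ {u : T | u.1.length = L}, Set.range (child x) := by
      rintro ⟨l, hl⟩ hu
      cases l with
      | nil => simp at hu
      | cons c l =>
        simp only [Set.mem_iUnion]
        refine ⟨⟨l, hl.2⟩, ?_, ⟨⟨c, hl.1⟩, rfl⟩⟩
        simpa using hu
    exact (ih.biUnion fun x _ => Set.finite_range _).subset this

lemma finite_le_level (L : ℕ) : {u : T | u.1.length ≤ L}.Finite := by
  have : {u : T | u.1.length ≤ L} ⊆ ⋃ i ∈ Finset.range (L + 1), {u : T | u.1.length = i} := by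
    intro u hu
    simp only [Set.mem_ofPred_eq] at hu
    simp only [Set.mem_iUnion]
    exact ⟨u.1.length, Finset.mem_range.2 (by omega), rfl⟩
  exact ((Finset.range (L + 1)).finite_toSet.biUnion fun i _ => finite_level i).subset this

lemma zeros_of_path (r : ℕ) : ∀ (a : ℕ) (l : List ℕ), Valid l → l.length = a + r →
    (∀ i < r, br (a + i) = 1) → l = List.replicate r 0 ++ l.drop r := by
  induction r with
  | zero => intro a l _ _ _; simp
  | succ r ih =>
    intro a l hl hlen hbr
    cases l with
    | nil => simp at hlen
    | cons c l =>
      have h1 : l.length = a + r := by simpa [← add_assoc] using hlen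
      have h2 : c < 1 := by
        have := hl.1
        rw [h1, hbr r (by omega)] at this
        exact this
      have h3 := ih a l hl.2 h1 (fun i hi => hbr i (by omega))
      have h4 : c = 0 := by omega
      rw [h4, List.drop_succ_cons, List.replicate_succ, List.cons_append, ← h3]

theorem exists_good_set (H : tree.Subgraph) (hH : H.verts.Nonempty) (N : ℕ) :
    ∃ K : Finset T, K.Nonempty ∧ (K : Set T) ⊆ H.verts ∧
      (eBd H (K : Set T)).encard * (N + 1 : ℕ) ≤ (K.card : ℕ∞) := by
  classical
  obtain ⟨v0, hv0⟩ := hH
  obtain ⟨j, hjN, hj⟩ : ∃ j, N ≤ j ∧ v0.1.length ≤ start j := by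
    have h1 : ∀ j, j ≤ start j := by
      intro j
      induction j with
      | zero => simp [start]
      | succ j ih => rw [start]; omega
    refine ⟨max N v0.1.length, le_max_left _ _, (le_max_right _ _).trans (h1 _)⟩
  set P := start j + 5 * (j + 1) with hP
  set L := start j + 6 * (j + 1) - 1 with hL
  have hPL : P + j = L := by omega
  have hbrP : ∀ i, P ≤ i → i ≤ L → br i = 1 := by
    intro i h1 h2
    obtain ⟨r, rfl⟩ : ∃ r, i = start j + r := ⟨i - start j, by omega⟩
    exact br_pathlevel j r (by omega) (by omega)
  set S : Set T := {u | u ∈ H.verts ∧ u.1.length ≤ L ∧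
    ∀ i, P ≤ i → i < u.1.length → H.Adj (anc u i) (anc u (i + 1))} with hS
  have hSfin : S.Finite := (finite_le_level L).subset fun u hu => hu.2.1
  have hv0S : v0 ∈ S := ⟨hv0, by omega, fun i h1 h2 => by omega⟩
  set K := hSfin.toFinset with hK
  have hKS : (K : Set T) = S := hSfin.coe_toFinset
  have hKmem : ∀ u, u ∈ K ↔ u ∈ S := fun u => hSfin.mem_toFinset
  set KL := K.filter (fun u => u.1.length = L) with hKL
  -- boundary bound
  have hbd : (eBd H (K : Set T)).encard ≤ (KL.card : ℕ∞) := by
    have hsub : eBd H (K : Set T) ⊆ (fun u : T => s(u, child u ⟨0, br_pos _⟩)) '' (KL : Set T) := by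
      rintro e ⟨he, u, hu, v, hv, rfl⟩
      rw [hKS] at hu hv
      rw [SimpleGraph.Subgraph.mem_edgeSet] at he
      have htree := H.adj_sub he
      have hvH : v ∈ H.verts := H.edge_vert he.symm
      rcases adj_cases htree with ⟨c, rfl⟩ | rfl
      · -- child
        by_cases hlt : u.1.length < L
        · exfalso
          apply hv
          refine ⟨hvH, ?_, ?_⟩
          · simp only [child, List.length_cons]; omega
          · intro i h1 h2
            have h3 : i ≤ u.1.length := by
              simp only [child, List.length_cons] at h2; omega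
            rw [anc_child u c i h3]
            rcases Nat.lt_or_eq_of_le h3 with h4 | h4
            · rw [anc_child u c (i + 1) (by omega)]
              exact hu.2.2 i h1 h4
            · have h5 : anc (child u c) (i + 1) = child u c := by
                have := anc_self (child u c)
                rw [show (child u c).1.length = i + 1 by simp [child, h4]] at this
                exact this
              rw [h5, h4, anc_self]
              exact he
        · have hlen : u.1.length = L := by
            have := hu.2.1; omega
          refine ⟨u, ?_, ?_⟩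
          · rw [Finset.mem_coe, hKL, Finset.mem_filter, hKmem]
            exact ⟨hu, hlen⟩
          · simp only
            congr 2
            have h6 : br u.1.length = 1 := by rw [hlen]; exact hbrP L (by omega) le_rfl
            apply Fin.ext
            have := c.2
            simp only
            omega
      · -- parent
        exfalso
        apply hv
        have hchild : ∃ c, u.1 = c :: (par u).1 := by
          rcases htree with ⟨c, h⟩ | ⟨c, h⟩
          · exfalso
            have := congrArg List.length h
            simp [par] at this
          · exact ⟨c, h⟩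
        obtain ⟨c, hc⟩ := hchild
        have hlen : u.1.length = (par u).1.length + 1 := by
          have := congrArg List.length hc
          simpa using this
        have hanc : ∀ i ≤ (par u).1.length, anc (par u) i = anc u i := by
          intro i hi
          have h7 : anc u (par u).1.length = par u := by
            apply Subtype.ext
            change u.1.drop (u.1.length - (par u).1.length) = (par u).1
            rw [hlen, Nat.add_sub_cancel_left, hc]
            simp [par]
          rw [← anc_anc u (par u).1.length i hi (by omega), h7]
        refine ⟨hvH, by have := hu.2.1; omega, ?_⟩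
        intro i h1 h2
        rw [hanc i (by omega), hanc (i + 1) (by omega)]
        exact hu.2.2 i h1 (by omega)
    refine (Set.encard_le_encard hsub).trans ((Set.encard_image_le _ _).trans ?_)
    rw [Set.encard_coe_eq_coe_finsetCard]
  -- injection
  have hinj : KL.card * (j + 1) ≤ K.card := by
    have h1 : (KL ×ˢ Finset.range (j + 1)).card = KL.card * (j + 1) := by
      rw [Finset.card_product, Finset.card_range]
    rw [← h1]
    refine Finset.card_le_card_of_injOn (fun q => anc q.1 (P + q.2)) ?_ ?_
    · rintro ⟨u, i⟩ hq
      rw [Finset.mem_coe, Finset.mem_product, hKL, Finset.mem_filter, hKmem, Finset.mem_range] at hq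
      obtain ⟨⟨hu, hulen⟩, hi⟩ := hq
      simp only at hu hulen hi
      rw [Finset.mem_coe, hKmem]
      simp only
      have hle : P + i ≤ u.1.length := by omega
      refine ⟨?_, ?_, ?_⟩
      · rcases Nat.lt_or_eq_of_le hle with h2 | h2
        · exact H.edge_vert (hu.2.2 (P + i) (by omega) h2)
        · rw [h2, anc_self]; exact hu.1
      · rw [anc_length _ _ hle]; omega
      · intro i' h3 h4
        rw [anc_length _ _ hle] at h4
        rw [anc_anc u (P + i) i' (by omega) hle, anc_anc u (P + i) (i' + 1) (by omega) hle]
        exact hu.2.2 i' h3 (by omega)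
    · rintro ⟨u, i⟩ hq ⟨u', i'⟩ hq' heq
      rw [Finset.mem_coe, Finset.mem_product, hKL, Finset.mem_filter, hKmem, Finset.mem_range]
        at hq hq'
      obtain ⟨⟨hu, hulen⟩, hi⟩ := hq
      obtain ⟨⟨hu', hulen'⟩, hi'⟩ := hq'
      simp only at hu hulen hi hu' hulen' hi' heq
      have h5 : P + i = P + i' := by
        have := congrArg (fun z : T => z.1.length) heq
        rwa [anc_length _ _ (by omega), anc_length _ _ (by omega)] at this
      have h6 : i = i' := by omega
      subst h6
      have h7 := zeros_of_path (L - (P + i)) (P + i) u.1 u.2 (by omega)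
        (fun r hr => hbrP _ (by omega) (by omega))
      have h8 := zeros_of_path (L - (P + i)) (P + i) u'.1 u'.2 (by omega)
        (fun r hr => hbrP _ (by omega) (by omega))
      have h9 : u.1.drop (L - (P + i)) = u'.1.drop (L - (P + i)) := by
        have := congrArg (fun z : T => z.1) heq
        simp only [anc, hulen, hulen'] at this
        exact this
      have h10 : u.1 = u'.1 := by rw [h7, h8, h9]
      rw [Subtype.ext h10]
  refine ⟨K, ⟨v0, (hKmem _).2 hv0S⟩, ?_, ?_⟩
  · rw [hKS]; exact fun u hu => hu.1
  · calc (eBd H (K : Set T)).encard * (N + 1 : ℕ) ≤ (KL.card : ℕ∞) * ((j + 1 : ℕ) : ℕ∞) := by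
          gcongr
      _ = ((KL.card * (j + 1) : ℕ) : ℕ∞) := by push_cast; rfl
      _ ≤ (K.card : ℕ∞) := by exact_mod_cast hinj

end Pool.Agent.Work.MP_7e30a6_pr
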