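import Pool.Agent.Work.MP_7e30a6_pr.Surv

open MeasureTheory ProbabilityTheory Filter
open scoped ENNReal

namespace Pool.Agent.Work.MP_7e30a6_pr

/-- superharmonic weight -/
noncomputable def wt (m : ℕ) (v : T × ℤ) : ℝ≥0∞ := 10 ^ m * (10⁻¹) ^ v.1.1.length

lemma ten_mul_inv : (10 : ℝ≥0∞) * 10⁻¹ = 1 := ENNReal.mul_inv_cancel (by norm_num) (by norm_num)

lemma wt_child (m : ℕ) (x : T) (n : ℤ) (c : Fin (br x.1.length)) :
    wt m (child x c, n) = 10⁻¹ * wt m (x, n) := by
  simp only [wt, child, List.length_cons, pow_succ]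
  ring

lemma wt_par (m : ℕ) (x : T) (n : ℤ) : wt m (par x, n) ≤ 10 * wt m (x, n) := by
  obtain ⟨l, hl⟩ := x
  cases l with
  | nil =>
    simp only [wt, par, List.tail_nil]
    exact le_mul_of_one_le_left zero_le (by norm_num)
  | cons c l =>
    simp only [wt, par, List.tail_cons, List.length_cons, pow_succ]
    have : 10 * ((10 : ℝ≥0∞) ^ m * (10⁻¹ ^ l.length * 10⁻¹)) =
      (10 * 10⁻¹) * ((10 : ℝ≥0∞) ^ m * (10⁻¹ ^ l.length)) := by ring
    rw [this, ten_mul_inv, one_mul]

lemma sum_insert_le' {α : Type*} [DecidableEq α] (a : α) (s : Finset α) (f : α → ℝ≥0∞) :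
    ∑ u ∈ insert a s, f u ≤ f a + ∑ u ∈ s, f u := by
  by_cases h : a ∈ s
  · rw [Finset.insert_eq_of_mem h]; exact le_add_self
  · rw [Finset.sum_insert h]

lemma num_aux : (1 / 24 : ℝ≥0∞) * 22 = 11 / 12 := by
  rw [← ENNReal.toReal_eq_toReal_iff' (by finiteness) (by finiteness)]
  simp only [ENNReal.toReal_mul, ENNReal.toReal_div]
  norm_num

lemma wt_superharmonic (m : ℕ) (p : unitInterval) (hp : (p : ℝ) ≤ 1 / 24) (v : T × ℤ) :
    ∑' u : Gam.neighborSet v, ENNReal.ofReal p * wt m u ≤ (11 / 12) * wt m v := by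
  classical
  obtain ⟨x, n⟩ := v
  set F1 : Finset (T × ℤ) := (Finset.univ : Finset (Fin (br x.1.length))).image
    (fun c => (child x c, n)) with hF1
  set F2 : Finset (T × ℤ) := {(par x, n), (x, n + 1), (x, n - 1)} with hF2
  have hsub : Gam.neighborSet (x, n) ⊆ ((F1 ∪ F2 : Finset (T × ℤ)) : Set (T × ℤ)) := by
    rintro ⟨y, k⟩ h
    rw [SimpleGraph.mem_neighborSet, SimpleGraph.boxProd_adj] at h
    simp only at h
    rw [Finset.mem_coe, Finset.mem_union]
    rcases h with ⟨h, rfl⟩ | ⟨h, rfl⟩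
    · rcases adj_cases h with ⟨c, rfl⟩ | rfl
      · left; rw [hF1, Finset.mem_image]; exact ⟨c, Finset.mem_univ _, rfl⟩
      · right; simp [hF2]
    · right
      rcases intLine_adj_cases h with rfl | rfl <;> simp [hF2]
  calc ∑' u : Gam.neighborSet (x, n), ENNReal.ofReal p * wt m u
      ≤ ∑' u : ((F1 ∪ F2 : Finset (T × ℤ)) : Set (T × ℤ)), ENNReal.ofReal p * wt m u :=
        ENNReal.tsum_mono_subtype (fun u => ENNReal.ofReal p * wt m u) hsub
    _ = ∑ u ∈ F1 ∪ F2, ENNReal.ofReal p * wt m u :=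
        Finset.tsum_subtype' (F1 ∪ F2) (fun u => ENNReal.ofReal p * wt m u)
    _ ≤ ∑ u ∈ F1, ENNReal.ofReal p * wt m u + ∑ u ∈ F2, ENNReal.ofReal p * wt m u := by
        rw [← Finset.sum_union_inter]
        exact le_self_add
    _ ≤ ENNReal.ofReal p * (10 * wt m (x, n)) + ENNReal.ofReal p * (12 * wt m (x, n)) := by
        gcongr
        · rw [← Finset.mul_sum]
          gcongr
          calc ∑ u ∈ F1, wt m u ≤ ∑ c : Fin (br x.1.length), wt m (child x c, n) := by
                rw [hF1]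
                rw [Finset.sum_image]
                intro c _ c' _ h
                have h2 := congrArg (fun z : T × ℤ => z.1.1) h
                simp only [child, List.cons.injEq, and_true] at h2
                exact Fin.ext h2
            _ = (br x.1.length : ℝ≥0∞) * (10⁻¹ * wt m (x, n)) := by
                simp [wt_child]
            _ ≤ 100 * (10⁻¹ * wt m (x, n)) := by
                gcongr
                exact_mod_cast br_le _
            _ = 10 * ((10 * 10⁻¹) * wt m (x, n)) := by ring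
            _ = 10 * wt m (x, n) := by rw [ten_mul_inv, one_mul]
        · rw [← Finset.mul_sum]
          gcongr
          calc ∑ u ∈ F2, wt m u ≤ wt m (par x, n) + (wt m (x, n + 1) + wt m (x, n - 1)) := by
                rw [hF2]
                refine (sum_insert_le' _ _ _).trans ?_
                gcongr
                refine (sum_insert_le' _ _ _).trans ?_
                rw [Finset.sum_singleton]
            _ ≤ 10 * wt m (x, n) + (wt m (x, n) + wt m (x, n)) := by
                gcongr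
                · exact wt_par m x n
                · exact le_rfl
                · exact le_rfl
            _ = 12 * wt m (x, n) := by ring
    _ = (ENNReal.ofReal p * 22) * wt m (x, n) := by ring
    _ ≤ (11 / 12) * wt m (x, n) := by
        gcongr
        have h1 : ENNReal.ofReal p ≤ 1 / 24 := by
          rw [show (1 / 24 : ℝ≥0∞) = ENNReal.ofReal (1 / 24) by
            rw [ENNReal.ofReal_div_of_pos (by norm_num)]; simp]
          exact ENNReal.ofReal_le_ofReal hp
        calc ENNReal.ofReal p * 22 ≤ (1 / 24) * 22 := by gcongr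
          _ = 11 / 12 := num_aux

lemma valid_replicate_append (n : ℕ) (l : List ℕ) (h : Valid l) :
    Valid (List.replicate n 0 ++ l) := by
  induction n with
  | zero => simpa using h
  | succ n ih =>
    rw [List.replicate_succ, List.cons_append]
    exact ⟨br_pos _, ih⟩

lemma valid_replicate (n : ℕ) : Valid (List.replicate n 0) := by
  simpa using valid_replicate_append n [] trivial

/-- branching-off vertex number `j` -/
def yv (j : ℕ) : T := ⟨1 :: List.replicate (start j) 0, by
  refine ⟨?_, valid_replicate _⟩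
  rw [List.length_replicate, br_start]; norm_num⟩

/-- deeper vertex below `yv j` -/
def xv (j : ℕ) : T := ⟨List.replicate (6 * (j + 1) - 1) 0 ++ (yv j).1,
  valid_replicate_append _ _ (yv j).2⟩

lemma yv_length (j : ℕ) : (yv j).1.length = start j + 1 := by simp [yv]

lemma xv_length (j : ℕ) : (xv j).1.length = start (j + 1) := by
  simp only [xv, List.length_append, List.length_replicate, yv_length, start]
  omega

lemma yv_suffix_xv (j : ℕ) : (yv j).1 <:+ (xv j).1 := List.suffix_append _ _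

lemma start_lt {i j : ℕ} (h : i < j) : start i < start j := by
  have : StrictMono start := strictMono_nat_of_lt_succ fun n => by rw [start]; omega
  exact this h

lemma yv_not_suffix_lt {i j : ℕ} (h : i < j) : ¬ (yv i).1 <:+ (yv j).1 := by
  intro hs
  have h1 := start_lt h
  have h2 : (yv i).1 <:+ List.replicate (start j) 0 := by
    rw [show (yv j).1 = 1 :: List.replicate (start j) 0 from rfl, List.suffix_cons_iff] at hs
    rcases hs with hs | hs
    · have := congrArg List.length hs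
      rw [yv_length] at this
      simp at this
      omega
    · exact hs
  have h3 : (1 : ℕ) ∈ List.replicate (start j) 0 := h2.subset (by simp [yv])
  rw [List.mem_replicate] at h3
  omega

lemma yv_not_suffix_gt {i j : ℕ} (h : i < j) : ¬ (yv j).1 <:+ (yv i).1 := by
  intro hs
  have h1 := start_lt h
  have h2 := hs.length_le
  rw [yv_length, yv_length] at h2
  omega

lemma yv_not_suffix {i j : ℕ} (h : i ≠ j) : ¬ (yv i).1 <:+ (yv j).1 := by
  rcases lt_or_gt_of_ne h with h | h
  · exact yv_not_suffix_lt h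
  · exact yv_not_suffix_gt h

lemma Dt_yv_disjoint : Pairwise (Function.onFun Disjoint (fun j => Dt (yv j))) :=
  fun _ _ h => Dt_disjoint _ _ (yv_not_suffix h) (yv_not_suffix h.symm)

/-- inside connection from `v` to the line of `y` -/
def Conn (ω : Gam.edgeSet → Bool) (v : T × ℤ) (y : T) : Prop :=
  ∃ n : ℤ, ∃ w : Gam.Walk v (y, n), ∀ e ∈ w.edges, IsOpen Gam ω e ∧ ∀ u ∈ e, y.1 <:+ u.1.1

instance : Countable T := inferInstance

lemma measurable_conn (v : T × ℤ) (y : T) :
    MeasurableSet[sig (Di y)] {ω : Gam.edgeSet → Bool | Conn ω v y} := by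
  classical
  have hset : {ω : Gam.edgeSet → Bool | Conn ω v y} =
      ⋃ n : ℕ, ⋃ w : WF Gam n v, {ω | (w.1.1 = y ∧ ∀ e ∈ w.2.1.edges, ∀ u ∈ e, y.1 <:+ u.1.1) ∧
        ∀ i ∈ edgeFin Gam w.2.1, ω i = true} := by
    ext ω
    simp only [Conn, Set.mem_ofPred_eq, Set.mem_iUnion]
    constructor
    · rintro ⟨n, w, hw⟩
      refine ⟨w.length, ⟨(y, n), ⟨w, rfl⟩⟩, ⟨rfl, fun e he => (hw e he).2⟩, ?_⟩
      exact (open_iff Gam w ω).1 fun e he => (hw e he).1
    · rintro ⟨n, ⟨⟨b1, b2⟩, ⟨w, hwl⟩⟩, ⟨⟨hb, hin⟩, ho⟩⟩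
      simp only at hb hin ho
      subst hb
      exact ⟨b2, w, fun e he => ⟨(open_iff Gam w ω).2 ho e he, hin e he⟩⟩
  rw [hset]
  refine MeasurableSet.iUnion fun n => ?_
  have := WF.countable Gam n v
  refine MeasurableSet.iUnion fun w => ?_
  by_cases hc : w.1.1 = y ∧ ∀ e ∈ w.2.1.edges, ∀ u ∈ e, y.1 <:+ u.1.1
  · have : {ω : Gam.edgeSet → Bool | (w.1.1 = y ∧ ∀ e ∈ w.2.1.edges, ∀ u ∈ e, y.1 <:+ u.1.1) ∧
        ∀ i ∈ edgeFin Gam w.2.1, ω i = true} = ⋂ i ∈ edgeFin Gam w.2.1, {ω | ω i = true} := by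
      ext ω
      simp only [Set.mem_ofPred_eq, Set.mem_iInter]
      exact ⟨fun h => h.2, fun h => ⟨hc, h⟩⟩
    rw [this]
    refine Finset.measurableSet_biInter _ fun i hi => ?_
    refine measurableSet_coord ?_ true
    intro u hu
    exact hc.2 i.1 ((mem_edgeFin Gam w.2.1 i).1 hi) u hu
  · have : {ω : Gam.edgeSet → Bool | (w.1.1 = y ∧ ∀ e ∈ w.2.1.edges, ∀ u ∈ e, y.1 <:+ u.1.1) ∧
        ∀ i ∈ edgeFin Gam w.2.1, ω i = true} = ∅ := by
      ext ω
      simp only [hc, false_and, Set.mem_ofPred_eq, Set.mem_empty_iff_false]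
    rw [this]
    exact @MeasurableSet.empty _ (sig (Di y))

lemma sum_geom : (∑' n : ℕ, (11 / 12 : ℝ≥0∞) ^ n) = 12 := by
  rw [ENNReal.tsum_geometric]
  have : (1 : ℝ≥0∞) - 11 / 12 = 12⁻¹ := by
    rw [← ENNReal.toReal_eq_toReal_iff' (by finiteness) (by finiteness)]
    rw [ENNReal.toReal_sub_of_le _ (by finiteness)]
    · simp only [ENNReal.toReal_div, ENNReal.toReal_inv]
      norm_num
    · rw [ENNReal.div_le_iff (by norm_num) (by norm_num)]
      norm_num
  rw [this, inv_inv]

lemma conn_le (p : unitInterval) (hp : (p : ℝ) ≤ 1 / 24) (v : T × ℤ) (y : T) :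
    perc Gam.edgeSet p {ω | Conn ω v y} ≤ 12 * wt y.1.length v := by
  have h := connect_le Gam p (11 / 12) (wt y.1.length) (wt_superharmonic y.1.length p hp)
    {u | u.1 = y} (by
      rintro ⟨b, n⟩ hb
      simp only [Set.mem_ofPred_eq] at hb
      subst hb
      simp only [wt]
      rw [← mul_pow, ten_mul_inv, one_pow]) v
  rw [sum_geom] at h
  refine (measure_mono ?_).trans h
  rintro ω ⟨n, w, hw⟩
  exact ⟨(y, n), rfl, w, fun e he => (hw e he).1⟩

lemma conn_xv_le (p : unitInterval) (hp : (p : ℝ) ≤ 1 / 24) (j : ℕ) :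
    (perc Gam.edgeSet p).real {ω | Conn ω (xv j, 0) (yv j)} ≤ 1 / 4 := by
  have h := conn_le p hp (xv j, 0) (yv j)
  have h2 : (12 : ℝ≥0∞) * wt (yv j).1.length (xv j, 0) ≤ 12 * (10⁻¹) ^ 2 := by
    gcongr
    simp only [wt, yv_length, xv_length]
    obtain ⟨r, hr⟩ : ∃ r, start (j + 1) = start j + 1 + 2 + r :=
      ⟨start (j + 1) - (start j + 1 + 2), by rw [start]; omega⟩
    rw [hr, pow_add _ _ r, pow_add _ _ 2, ← mul_assoc, ← mul_assoc, ← mul_pow, ten_mul_inv,
      one_pow, one_mul]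
    exact mul_le_of_le_one_right zero_le (pow_le_one₀ zero_le (by
      rw [ENNReal.inv_le_one]; norm_num))
  rw [measureReal_def]
  have h3 : (12 * (10⁻¹) ^ 2 : ℝ≥0∞) ≤ 1 / 4 := by
    rw [← ENNReal.toReal_le_toReal (by finiteness) (by finiteness)]
    simp only [ENNReal.toReal_mul, ENNReal.toReal_pow, ENNReal.toReal_inv, ENNReal.toReal_div]
    norm_num
  calc (perc Gam.edgeSet p {ω | Conn ω (xv j, 0) (yv j)}).toReal ≤ ((1 / 4 : ℝ≥0∞)).toReal :=
        ENNReal.toReal_mono (by finiteness) (h.trans (h2.trans h3))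
    _ = 1 / 4 := by simp

/-- the good event -/
def good (j : ℕ) : Set (Gam.edgeSet → Bool) :=
  (⋂ k, {ω | Surv ω k (xv j)}) ∩ {ω | Conn ω (xv j, 0) (yv j)}ᶜ

lemma Di_mono {y x : T} (h : y.1 <:+ x.1) : Di x ⊆ Di y := fun _ he v hv => h.trans (he v hv)

lemma measurable_good (j : ℕ) : MeasurableSet[sig (Dt (yv j))] (good j) := by
  have h1 : Di (yv j) ⊆ Dt (yv j) := Di_subset_Dt _
  refine sig_mono h1 _ ?_
  refine MeasurableSet.inter ?_ (measurable_conn _ _).compl
  refine MeasurableSet.iInter fun k => ?_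
  exact sig_mono (Di_mono (yv_suffix_xv j)) _ (measurable_surv k (xv j))

lemma good_lower (p : unitInterval) (hp1 : (1 : ℝ) / 25 ≤ p) (hp2 : (p : ℝ) ≤ 1 / 24) (j : ℕ) :
    1 / 4 ≤ (perc Gam.edgeSet p).real (good j) := by
  have h1 := surv_inf_lower p hp1 (xv j)
  rw [xv_length, phi_start] at h1
  have h2 := conn_xv_le p hp2 j
  have h3 : (perc Gam.edgeSet p).real (⋂ k, {ω | Surv ω k (xv j)}) ≤
      (perc Gam.edgeSet p).real (good j) +
      (perc Gam.edgeSet p).real {ω | Conn ω (xv j, 0) (yv j)} := by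
    refine (measureReal_mono ?_).trans (measureReal_union_le _ _)
    intro ω hω
    by_cases hc : Conn ω (xv j, 0) (yv j)
    · right; exact hc
    · left; exact ⟨hω, hc⟩
  linarith

theorem ae_frequently_good (p : unitInterval) (hp1 : (1 : ℝ) / 25 ≤ p) (hp2 : (p : ℝ) ≤ 1 / 24) :
    ∀ᵐ ω ∂(perc Gam.edgeSet p), ∃ᶠ j in atTop, ω ∈ good j := by
  have hind := iIndepSet_of_disjoint p (fun j => Dt (yv j)) Dt_yv_disjoint good measurable_good
  have hm : ∀ j, MeasurableSet (good j) := fun j => sig_le _ _ (measurable_good j)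
  have hsum : (∑' j, perc Gam.edgeSet p (good j)) = ∞ := by
    have h1 : ∀ j, ENNReal.ofReal (1 / 4) ≤ perc Gam.edgeSet p (good j) := by
      intro j
      rw [ENNReal.ofReal_le_iff_le_toReal (measure_ne_top _ _)]
      exact good_lower p hp1 hp2 j
    have h2 : (∑' _j : ℕ, ENNReal.ofReal (1 / 4)) = ∞ :=
      ENNReal.tsum_const_eq_top_of_ne_zero (by simp)
    rw [← top_le_iff, ← h2]
    exact ENNReal.tsum_le_tsum h1
  have h := measure_limsup_eq_one hm hind hsum
  have h2 : ∀ᵐ ω ∂(perc Gam.edgeSet p), ω ∈ limsup good atTop := by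
    rw [← prob_compl_eq_zero_iff (MeasurableSet.measurableSet_limsup hm)] at h
    exact h
  filter_upwards [h2] with ω hω
  rw [mem_limsup_iff_frequently_mem] at hω
  exact hω

end Pool.Agent.Work.MP_7e30a6_pr
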