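import Pool.Agent.Work.MP_7e30a6_pr.Clusters

open MeasureTheory ProbabilityTheory Filter
open scoped ENNReal

namespace Pool.Agent.Work.MP_7e30a6_pr

lemma escape (ω : Gam.edgeSet → Bool) (y : T) {v u : T × ℤ} (w : (openGraph Gam ω).Walk v u)
    (hv : y.1 <:+ v.1.1 ∧ v.1 ≠ y) :
    (y.1 <:+ u.1.1 ∧ u.1 ≠ y) ∨ Conn ω v y := by
  induction w with
  | nil => exact Or.inl hv
  | @cons v v' u h w' ih =>
    obtain ⟨hmem, hopen⟩ := h
    have hadj : Gam.Adj v v' := hmem
    have hstep : y.1 <:+ v'.1.1 → ∀ e ∈ [s(v, v')], IsOpen Gam ω e ∧ ∀ u ∈ e, y.1 <:+ u.1.1 := by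
      intro hs e he
      simp only [List.mem_cons, List.not_mem_nil, or_false] at he
      subst he
      refine ⟨⟨hmem, hopen⟩, ?_⟩
      intro z hz
      rcases Sym2.mem_iff.1 hz with rfl | rfl
      · exact hv.1
      · exact hs
    by_cases hs : y.1 <:+ v'.1.1
    · by_cases hy : v'.1 = y
      · right
        obtain ⟨v1, n⟩ := v'
        simp only at hy
        subst hy
        refine ⟨n, SimpleGraph.Walk.cons hadj SimpleGraph.Walk.nil, ?_⟩
        simpa using hstep hs
      · rcases ih ⟨hs, hy⟩ with h1 | h1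
        · exact Or.inl h1
        · right
          obtain ⟨n, w, hw⟩ := h1
          refine ⟨n, SimpleGraph.Walk.cons hadj w, ?_⟩
          intro e he
          rw [SimpleGraph.Walk.edges_cons, List.mem_cons] at he
          rcases he with rfl | he
          · exact hstep hs _ (by simp)
          · exact hw e he
    · exfalso
      rw [SimpleGraph.boxProd_adj] at hadj
      rcases hadj with ⟨h, _⟩ | ⟨_, h⟩
      · rcases h with ⟨c, h⟩ | ⟨c, h⟩
        · exact hs (h ▸ hv.1.trans (List.suffix_cons c _))
        · have h1 := hv.1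
          rw [h, List.suffix_cons_iff] at h1
          rcases h1 with h1 | h1
          · exact hv.2 (Subtype.ext (h.trans h1.symm))
          · exact hs h1
      · exact hs (h ▸ hv.1)

lemma xv_ne_yv (j : ℕ) : xv j ≠ yv j := by
  intro h
  have := congrArg (fun x : T => x.1.length) h
  simp only [xv_length, yv_length, start] at this
  omega

lemma good_cluster_subset (ω : Gam.edgeSet → Bool) (j : ℕ) (h : ω ∈ good j) (u : T × ℤ)
    (hr : (openGraph Gam ω).Reachable (xv j, 0) u) : (yv j).1 <:+ u.1.1 := by
  obtain ⟨w⟩ := hr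
  rcases escape ω (yv j) w ⟨yv_suffix_xv j, xv_ne_yv j⟩ with h1 | h1
  · exact h1.1
  · exact absurd h1 h.2

lemma good_cluster_infinite (ω : Gam.edgeSet → Bool) (j : ℕ) (h : ω ∈ good j) :
    ((openGraph Gam ω).connectedComponentMk (xv j, 0)).supp.Infinite := by
  intro hfin
  have h1 : ((fun v : T × ℤ => v.1.1.length) ''
    ((openGraph Gam ω).connectedComponentMk (xv j, 0)).supp).Finite := hfin.image _
  obtain ⟨B, hB⟩ := h1.bddAbove
  have h2 : Surv ω (B + 1) (xv j) := by
    have := h.1
    rw [Set.mem_iInter] at this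
    exact this (B + 1)
  obtain ⟨z, hz1, hz2⟩ := surv_reach ω _ _ h2
  have h3 := hB ⟨(z, 0), by
    rw [SimpleGraph.ConnectedComponent.mem_supp_iff, SimpleGraph.ConnectedComponent.eq]
    exact hz2.symm, rfl⟩
  simp only at h3
  omega

/-- infinitely many infinite clusters -/
lemma infinite_clusters (ω : Gam.edgeSet → Bool) (h : ∃ᶠ j in atTop, ω ∈ good j) :
    {C : (openGraph Gam ω).ConnectedComponent | C.supp.Infinite}.Infinite := by
  have hJ : {j : ℕ | ω ∈ good j}.Infinite := Nat.frequently_atTop_iff_infinite.1 h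
  refine Set.infinite_of_injOn_mapsTo (f := fun j =>
    (openGraph Gam ω).connectedComponentMk (xv j, 0)) (s := {j : ℕ | ω ∈ good j}) ?_ ?_ hJ
  · intro i hi j hj hij
    by_contra hne
    simp only [SimpleGraph.ConnectedComponent.eq] at hij
    have h1 := good_cluster_subset ω i hi _ hij
    simp only at h1
    rcases List.suffix_or_suffix_of_suffix h1 (yv_suffix_xv j) with h2 | h2
    · exact yv_not_suffix hne h2
    · exact yv_not_suffix (Ne.symm hne) h2
  · intro j hj
    exact good_cluster_infinite ω j hj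

theorem ae_infinite_clusters (p : unitInterval) (hp1 : (1 : ℝ) / 25 ≤ p) (hp2 : (p : ℝ) ≤ 1 / 24) :
    ∀ᵐ ω ∂(perc Gam.edgeSet p),
      {C : (openGraph Gam ω).ConnectedComponent | C.supp.Infinite}.Infinite := by
  filter_upwards [ae_frequently_good p hp1 hp2] with ω hω
  exact infinite_clusters ω hω

/-! basic properties of the tree -/

/-- the root -/
def rt : T := ⟨[], trivial⟩

lemma reach_root (x : T) : tree.Reachable rt x := by
  obtain ⟨l, hl⟩ := x
  induction l with
  | nil => exact SimpleGraph.Reachable.refl _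
  | cons c l ih =>
    have h1 := ih hl.2
    have hadj : tree.Adj ⟨l, hl.2⟩ ⟨c :: l, hl⟩ := Or.inl ⟨c, rfl⟩
    exact h1.trans hadj.reachable

lemma tree_connected : tree.Connected := by
  have : Nonempty T := ⟨rt⟩
  exact ⟨fun x y => (reach_root x).symm.trans (reach_root y)⟩

instance T_infinite : Infinite T :=
  Infinite.of_injective (fun n : ℕ => (⟨List.replicate n 0, valid_replicate n⟩ : T)) (by
    intro a b h
    have := congrArg (fun x : T => x.1.length) h
    simpa using this)

lemma nbr_subset (x : T) : tree.neighborSet x ⊆ insert (par x) (Set.range (child x)) := by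
  intro y hy
  rcases adj_cases hy with ⟨c, rfl⟩ | rfl
  · exact Set.mem_insert_of_mem _ ⟨c, rfl⟩
  · exact Set.mem_insert _ _

lemma nbr_encard (x : T) : (tree.neighborSet x).encard ≤ 101 := by
  refine (Set.encard_le_encard (nbr_subset x)).trans ?_
  refine (Set.encard_insert_le _ _).trans ?_
  have h1 : (Set.range (child x)).encard ≤ 100 := by
    rw [← Set.image_univ]
    refine (Set.encard_image_le _ _).trans ?_
    rw [Set.encard_univ, ENat.card_eq_coe_fintype_card, Fintype.card_fin]
    exact_mod_cast br_le _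
  calc (Set.range (child x)).encard + 1 ≤ 100 + 1 := by gcongr
    _ = 101 := by norm_num

end Pool.Agent.Work.MP_7e30a6_pr
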