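import Mathlib

open MeasureTheory ProbabilityTheory Filter
open scoped ENNReal

namespace Pool.Agent.Work.MP_7e30a6_pr

/-- sigma-algebra generated by the coordinates in `D`. -/
@[reducible] def sig {ι : Type*} (D : Set ι) : MeasurableSpace (ι → Bool) :=
  ⨆ i ∈ D, MeasurableSpace.comap (fun ω : ι → Bool => ω i) ⊤

lemma coord_le {ι : Type*} (i : ι) :
    MeasurableSpace.comap (fun ω : ι → Bool => ω i) ⊤ ≤ (inferInstance : MeasurableSpace (ι → Bool)) :=
  (measurable_pi_apply i).comap_le

lemma sig_le {ι : Type*} (D : Set ι) : sig D ≤ (inferInstance : MeasurableSpace (ι → Bool)) :=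
  iSup₂_le fun i _ => coord_le i

lemma sig_mono {ι : Type*} {D E : Set ι} (h : D ⊆ E) : sig D ≤ sig E :=
  biSup_mono h

lemma measurableSet_coord {ι : Type*} {D : Set ι} {i : ι} (hi : i ∈ D) (b : Bool) :
    MeasurableSet[sig D] {ω : ι → Bool | ω i = b} := by
  have h1 : MeasurableSpace.comap (fun ω : ι → Bool => ω i) ⊤ ≤ sig D :=
    le_iSup₂_of_le i hi le_rfl
  apply h1
  exact ⟨{b}, trivial, rfl⟩

/-- Bernoulli product measure. -/
noncomputable def perc (ι : Type*) (p : unitInterval) : Measure (ι → Bool) :=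
  Measure.infinitePi (fun _ : ι => bernoulliMeasure true false p)

instance {ι : Type*} (p : unitInterval) : IsProbabilityMeasure (perc ι p) := by
  unfold perc; infer_instance

lemma iIndep_coord {ι : Type*} (p : unitInterval) :
    iIndep (fun i : ι => MeasurableSpace.comap (fun ω : ι → Bool => ω i) ⊤) (perc ι p) := by
  have := iIndepFun_infinitePi (P := fun _ : ι => bernoulliMeasure true false p)
    (X := fun _ ω => ω) (fun i => measurable_id)
  exact this.iIndep

theorem indep_sig {ι : Type*} (p : unitInterval) {D E : Set ι} (h : Disjoint D E) :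
    Indep (sig D) (sig E) (perc ι p) :=
  indep_iSup_of_disjoint (fun i => coord_le i) (iIndep_coord p) h

theorem meas_biInter_of_disjoint {ι κ : Type*} (p : unitInterval) (D : κ → Set ι)
    (hD : Pairwise (Function.onFun Disjoint D)) (A : κ → Set (ι → Bool))
    (hA : ∀ k, MeasurableSet[sig (D k)] (A k)) (s : Finset κ) :
    perc ι p (⋂ k ∈ s, A k) = ∏ k ∈ s, perc ι p (A k) := by
  classical
  induction s using Finset.induction_on with
  | empty => simp
  | insert a s has ih =>
    rw [Finset.prod_insert has, ← ih, Finset.set_biInter_insert]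
    have hdisj : Disjoint (D a) (⋃ k ∈ s, D k) := by
      rw [Set.disjoint_iUnion₂_right]
      intro k hk
      exact hD (fun h => has (h ▸ hk))
    have hind := indep_sig p hdisj
    rw [Indep_iff] at hind
    refine hind _ _ (hA a) ?_
    refine Finset.measurableSet_biInter s fun k hk => ?_
    exact sig_mono (Set.subset_biUnion_of_mem (u := D) hk) _ (hA k)

theorem iIndepSet_of_disjoint {ι κ : Type*} (p : unitInterval) (D : κ → Set ι)
    (hD : Pairwise (Function.onFun Disjoint D)) (A : κ → Set (ι → Bool))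
    (hA : ∀ k, MeasurableSet[sig (D k)] (A k)) :
    iIndepSet A (perc ι p) := by
  rw [iIndepSet_iff_meas_biInter (fun k => sig_le _ _ (hA k))]
  exact meas_biInter_of_disjoint p D hD A hA

theorem perc_coord {ι : Type*} (p : unitInterval) (i : ι) :
    perc ι p {ω | ω i = true} = ENNReal.ofReal p := by
  have h := Measure.infinitePi_pi (fun _ : ι => bernoulliMeasure true false p) (s := {i})
    (t := fun _ => {true}) (fun _ _ => trivial)
  have h2 : Set.pi (↑({i} : Finset ι)) (fun _ : ι => ({true} : Set Bool))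
      = {ω : ι → Bool | ω i = true} := by
    ext ω; simp
  rw [h2] at h
  rw [perc, h]
  simp [ENNReal.ofReal, unitInterval.toNNReal, Real.toNNReal_of_nonneg p.2.1]
  rfl

theorem perc_allopen {ι : Type*} (p : unitInterval) (s : Finset ι) :
    perc ι p {ω | ∀ i ∈ s, ω i = true} = ENNReal.ofReal p ^ s.card := by
  have h := Measure.infinitePi_pi (fun _ : ι => bernoulliMeasure true false p) (s := s)
    (t := fun _ => {true}) (fun _ _ => trivial)
  have h2 : Set.pi (↑s) (fun _ : ι => ({true} : Set Bool))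
      = {ω : ι → Bool | ∀ i ∈ s, ω i = true} := by
    ext ω; simp
  rw [h2] at h
  rw [perc, h]
  simp [ENNReal.ofReal, unitInterval.toNNReal, Real.toNNReal_of_nonneg p.2.1]
  rfl

section walks

variable {W : Type*} (Γ : SimpleGraph W)

/-- the edge `e` is an open edge of `Γ` -/
def IsOpen (ω : Γ.edgeSet → Bool) (e : Sym2 W) : Prop := ∃ h : e ∈ Γ.edgeSet, ω ⟨e, h⟩ = true

/-- walks of length `n` from `a` -/
abbrev WF (n : ℕ) (a : W) : Type _ := Σ b : W, {w : Γ.Walk a b // w.length = n}

/-- adding a step -/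
def WF.cons {n : ℕ} {a : W} (x : Σ u : Γ.neighborSet a, WF Γ n (u : W)) : WF Γ (n + 1) a :=
  ⟨x.2.1, ⟨SimpleGraph.Walk.cons ((Γ.mem_neighborSet a _).1 x.1.2) x.2.2.1, by
    rw [SimpleGraph.Walk.length_cons, x.2.2.2]⟩⟩

lemma WF.cons_surj {n : ℕ} {a : W} : Function.Surjective (WF.cons Γ (n := n) (a := a)) := by
  rintro ⟨b, w, hw⟩
  cases w with
  | nil => simp at hw
  | cons h w' =>
    refine ⟨⟨⟨_, h⟩, ⟨b, w', ?_⟩⟩, rfl⟩
    simpa using hw

lemma WF.countable [Countable W] (n : ℕ) (a : W) : Countable (WF Γ n a) := by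
  induction n generalizing a with
  | zero =>
    have : Function.Surjective (fun _ : Unit => (⟨a, ⟨SimpleGraph.Walk.nil, rfl⟩⟩ : WF Γ 0 a)) := by
      rintro ⟨b, w, hw⟩
      cases w with
      | nil => exact ⟨(), rfl⟩
      | cons h w' => simp at hw
    exact this.countable
  | succ n ih =>
    have : ∀ u, Countable (WF Γ n u) := ih
    exact (WF.cons_surj Γ).countable

theorem walk_sum (p δ : ℝ≥0∞) (h : W → ℝ≥0∞)
    (hh : ∀ v, ∑' u : Γ.neighborSet v, p * h u ≤ δ * h v) (n : ℕ) :
    ∀ a, ∑' w : WF Γ n a, p ^ n * h w.1 ≤ δ ^ n * h a := by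
  induction n with
  | zero =>
    intro a
    have hs : Function.Surjective (fun _ : Unit => (⟨a, ⟨SimpleGraph.Walk.nil, rfl⟩⟩ : WF Γ 0 a)) := by
      rintro ⟨b, w, hw⟩
      cases w with
      | nil => exact ⟨(), rfl⟩
      | cons h w' => simp at hw
    refine (ENNReal.tsum_le_tsum_comp_of_surjective hs _).trans ?_
    simp
  | succ n ih =>
    intro a
    refine (ENNReal.tsum_le_tsum_comp_of_surjective (WF.cons_surj Γ) _).trans ?_
    rw [ENNReal.tsum_sigma']
    calc ∑' (u : Γ.neighborSet a) (w : WF Γ n (u : W)), p ^ (n + 1) * h (WF.cons Γ ⟨u, w⟩).1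
        = ∑' (u : Γ.neighborSet a), p * ∑' (w : WF Γ n (u : W)), p ^ n * h w.1 := by
          refine tsum_congr fun u => ?_
          rw [← ENNReal.tsum_mul_left]
          refine tsum_congr fun w => ?_
          simp only [WF.cons]
          ring
      _ ≤ ∑' (u : Γ.neighborSet a), p * (δ ^ n * h u) := by
          refine ENNReal.tsum_le_tsum fun u => ?_
          gcongr
          exact ih u
      _ = δ ^ n * ∑' (u : Γ.neighborSet a), p * h u := by
          rw [← ENNReal.tsum_mul_left]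
          refine tsum_congr fun u => ?_
          ring
      _ ≤ δ ^ n * (δ * h a) := by gcongr; exact hh a
      _ = δ ^ (n + 1) * h a := by ring

/-- edges of a walk as a finset of `Γ.edgeSet` -/
noncomputable def edgeFin {a b : W} (w : Γ.Walk a b) : Finset Γ.edgeSet := by
  classical
  exact (w.edges.attach.map (fun e => (⟨e.1, w.edges_subset_edgeSet e.2⟩ : Γ.edgeSet))).toFinset

lemma mem_edgeFin {a b : W} (w : Γ.Walk a b) (i : Γ.edgeSet) :
    i ∈ edgeFin Γ w ↔ i.1 ∈ w.edges := by
  classical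
  simp only [edgeFin, List.mem_toFinset, List.mem_map, List.mem_attach, true_and, Subtype.exists]
  constructor
  · rintro ⟨e, he, rfl⟩; exact he
  · intro h; exact ⟨i.1, h, rfl⟩

lemma card_edgeFin {a b : W} (w : Γ.Walk a b) (hw : w.IsPath) :
    (edgeFin Γ w).card = w.length := by
  classical
  unfold edgeFin
  rw [List.toFinset_card_of_nodup]
  · simp
  · refine List.Nodup.map ?_ (List.nodup_attach.2 hw.isTrail.edges_nodup)
    intro x y hxy
    simp only [Subtype.mk.injEq] at hxy
    exact Subtype.ext hxy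

lemma open_iff {a b : W} (w : Γ.Walk a b) (ω : Γ.edgeSet → Bool) :
    (∀ e ∈ w.edges, IsOpen Γ ω e) ↔ ∀ i ∈ edgeFin Γ w, ω i = true := by
  constructor
  · intro h i hi
    obtain ⟨_, h2⟩ := h i.1 ((mem_edgeFin Γ w i).1 hi)
    exact h2
  · intro h e he
    exact ⟨w.edges_subset_edgeSet he, h ⟨e, w.edges_subset_edgeSet he⟩ ((mem_edgeFin Γ w _).2 he)⟩

theorem connect_le [Countable W] (p : unitInterval) (δ : ℝ≥0∞) (h : W → ℝ≥0∞)
    (hh : ∀ v, ∑' u : Γ.neighborSet v, ENNReal.ofReal p * h u ≤ δ * h v) (A : Set W)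
    (hA : ∀ b ∈ A, 1 ≤ h b) (a : W) :
    perc Γ.edgeSet p {ω | ∃ b ∈ A, ∃ w : Γ.Walk a b, ∀ e ∈ w.edges, IsOpen Γ ω e}
      ≤ (∑' n : ℕ, δ ^ n) * h a := by
  classical
  have hsub : {ω : Γ.edgeSet → Bool | ∃ b ∈ A, ∃ w : Γ.Walk a b, ∀ e ∈ w.edges, IsOpen Γ ω e} ⊆
      ⋃ n : ℕ, ⋃ w : WF Γ n a, (if w.1 ∈ A ∧ w.2.1.IsPath then
        {ω | ∀ i ∈ edgeFin Γ w.2.1, ω i = true} else ∅) := by
    rintro ω ⟨b, hb, w, hw⟩
    simp only [Set.mem_iUnion]
    refine ⟨w.bypass.length, ⟨b, ⟨w.bypass, rfl⟩⟩, ?_⟩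
    rw [if_pos ⟨hb, w.bypass_isPath⟩]
    exact (open_iff Γ _ ω).1 (fun e he => hw e (w.edges_bypass_subset_edges he))
  refine (measure_mono hsub).trans ?_
  refine (measure_iUnion_le _).trans ?_
  rw [← ENNReal.tsum_mul_right]
  refine ENNReal.tsum_le_tsum fun n => ?_
  have := WF.countable Γ n a
  refine (measure_iUnion_le _).trans ?_
  refine le_trans ?_ (walk_sum Γ (ENNReal.ofReal p) δ h hh n a)
  refine ENNReal.tsum_le_tsum fun w => ?_
  split_ifs with hw
  · rw [perc_allopen, card_edgeFin Γ _ hw.2, w.2.2]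
    exact le_mul_of_one_le_right zero_le (hA _ hw.1)
  · simp

end walks

end Pool.Agent.Work.MP_7e30a6_pr
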