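import Pool.Agent.Work.MP_7e30a6_pr.Tree

open MeasureTheory ProbabilityTheory Filter
open scoped ENNReal

namespace Pool.Agent.Work.MP_7e30a6_pr

/-- survival for `k` generations in slice `0` -/
def Surv (ω : Gam.edgeSet → Bool) : ℕ → T → Prop
  | 0, _ => True
  | k + 1, x => ∃ c : Fin (br x.1.length),
      IsOpen Gam ω s((x, 0), (child x c, 0)) ∧ Surv ω k (child x c)

/-- edges touching the subtree -/
def Dt (y : T) : Set Gam.edgeSet := {e | ∃ v ∈ e.1, y.1 <:+ v.1.1}

/-- edges inside the subtree -/
def Di (y : T) : Set Gam.edgeSet := {e | ∀ v ∈ e.1, y.1 <:+ v.1.1}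

lemma suffix_child (x : T) (c : Fin (br x.1.length)) : x.1 <:+ (child x c).1 :=
  List.suffix_cons _ _

lemma Dt_disjoint (y y' : T) (h1 : ¬ y.1 <:+ y'.1) (h2 : ¬ y'.1 <:+ y.1) :
    Disjoint (Dt y) (Dt y') := by
  rw [Set.disjoint_left]
  rintro ⟨e, he⟩ ⟨v, hv, hyv⟩ ⟨v', hv', hyv'⟩
  simp only at hv hv'
  have key : ∀ z z' : T, y.1 <:+ z.1 → y'.1 <:+ z.1 → False := by
    intro z _ ha hb
    rcases List.suffix_or_suffix_of_suffix ha hb with h | h
    · exact h1 h
    · exact h2 h
  by_cases hvv : v = v'
  · subst hvv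
    exact key v.1 v.1 hyv hyv'
  · have hadj : Gam.Adj v v' := by
      have : e = s(v, v') := (Sym2.mem_and_mem_iff hvv).1 ⟨hv, hv'⟩
      rw [this] at he
      exact he
    rw [SimpleGraph.boxProd_adj] at hadj
    rcases hadj with ⟨h, _⟩ | ⟨_, h⟩
    · rcases h with ⟨c, h⟩ | ⟨c, h⟩
      · exact key v'.1 v'.1 (h ▸ hyv.trans (List.suffix_cons c _)) hyv'
      · exact key v.1 v.1 hyv (h ▸ hyv'.trans (List.suffix_cons c _))
    · rw [h] at hyv
      exact key v'.1 v'.1 hyv hyv'

lemma adj_slice (x : T) (c : Fin (br x.1.length)) :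
    s((x, (0 : ℤ)), (child x c, (0 : ℤ))) ∈ Gam.edgeSet := by
  rw [SimpleGraph.mem_edgeSet, SimpleGraph.boxProd_adj]
  exact Or.inl ⟨tree_adj_child x c, rfl⟩

/-- the edge from `x` to its child in slice `0` -/
def ed (x : T) (c : Fin (br x.1.length)) : Gam.edgeSet := ⟨_, adj_slice x c⟩

lemma isOpen_ed (ω : Gam.edgeSet → Bool) (x : T) (c : Fin (br x.1.length)) :
    IsOpen Gam ω s((x, 0), (child x c, 0)) ↔ ω (ed x c) = true := by
  constructor
  · rintro ⟨_, h⟩; exact h
  · intro h; exact ⟨adj_slice x c, h⟩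

lemma Di_child_subset (x : T) (c : Fin (br x.1.length)) : Di (child x c) ⊆ Di x := by
  intro e he v hv
  exact (suffix_child x c).trans (he v hv)

lemma ed_mem_Di (x : T) (c : Fin (br x.1.length)) : ed x c ∈ Di x := by
  intro v hv
  simp only [ed, Sym2.mem_iff] at hv
  rcases hv with rfl | rfl
  · exact List.suffix_rfl
  · exact suffix_child x c

lemma ed_mem_Dt (x : T) (c : Fin (br x.1.length)) : ed x c ∈ Dt (child x c) :=
  ⟨(child x c, 0), by simp [ed], List.suffix_rfl⟩

lemma ed_notMem_Di (x : T) (c : Fin (br x.1.length)) : ed x c ∉ Di (child x c) := by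
  intro h
  have := h (x, 0) (by simp [ed])
  have := this.length_le
  simp [child] at this

lemma Di_subset_Dt (x : T) : Di x ⊆ Dt x := by
  rintro ⟨e, he⟩ h
  induction e with
  | h a b => exact ⟨a, by simp, h a (by simp)⟩

lemma measurable_surv (k : ℕ) (x : T) :
    MeasurableSet[sig (Di x)] {ω : Gam.edgeSet → Bool | Surv ω k x} := by
  induction k generalizing x with
  | zero => simp [Surv]
  | succ k ih =>
    have : {ω : Gam.edgeSet → Bool | Surv ω (k + 1) x} =
        ⋃ c : Fin (br x.1.length), {ω | ω (ed x c) = true} ∩ {ω | Surv ω k (child x c)} := by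
      ext ω
      simp only [Surv, isOpen_ed, Set.mem_ofPred_eq, Set.mem_iUnion, Set.mem_inter_iff]
    rw [this]
    refine MeasurableSet.iUnion fun c => ?_
    exact (measurableSet_coord (ed_mem_Di x c) true).inter
      (sig_mono (Di_child_subset x c) _ (ih (child x c)))

lemma surv_succ (ω : Gam.edgeSet → Bool) (k : ℕ) (x : T) (h : Surv ω (k + 1) x) : Surv ω k x := by
  induction k generalizing x with
  | zero => trivial
  | succ k ih =>
    obtain ⟨c, h1, h2⟩ := h
    exact ⟨c, h1, ih _ h2⟩

lemma child_not_suffix (x : T) (c c' : Fin (br x.1.length)) (h : c ≠ c') :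
    ¬ (child x c).1 <:+ (child x c').1 := by
  intro hs
  have h2 : (child x c).1 = (child x c').1 := hs.eq_of_length (by simp [child])
  simp only [child, List.cons.injEq] at h2
  exact h (Fin.ext h2.1)

theorem surv_lower (p : unitInterval) (hp : (1 : ℝ) / 25 ≤ p) (k : ℕ) (x : T) :
    phi x.1.length ≤ (perc Gam.edgeSet p).real {ω | Surv ω k x} := by
  induction k generalizing x with
  | zero =>
    simp only [Surv, Set.ofPred_true, probReal_univ]
    exact (phi_le _).trans (by norm_num)
  | succ k ih =>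
    set μ := perc Gam.edgeSet p with hμ
    set E : Fin (br x.1.length) → Set (Gam.edgeSet → Bool) := fun c =>
      {ω | ω (ed x c) = true} ∩ {ω | Surv ω k (child x c)} with hE
    have hEm : ∀ c, MeasurableSet[sig (Dt (child x c))] (E c) := by
      intro c
      exact (measurableSet_coord (ed_mem_Dt x c) true).inter
        (sig_mono (Di_subset_Dt _) _ (measurable_surv k (child x c)))
    have hEm' : ∀ c, MeasurableSet (E c) := fun c => sig_le _ _ (hEm c)
    have hprob : ∀ c, (p : ℝ) * phi (x.1.length + 1) ≤ μ.real (E c) := by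
      intro c
      have hind := indep_sig p (D := {ed x c}) (E := Di (child x c))
        (by rw [Set.disjoint_singleton_left]; exact ed_notMem_Di x c)
      rw [Indep_iff] at hind
      have h1 := hind _ _ (measurableSet_coord (Set.mem_singleton _) true)
        (measurable_surv k (child x c))
      rw [perc_coord] at h1
      have h2 : μ.real (E c) = (p : ℝ) * μ.real {ω | Surv ω k (child x c)} := by
        rw [measureReal_def, hE]
        simp only
        rw [h1, ENNReal.toReal_mul, ENNReal.toReal_ofReal p.2.1]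
        rfl
      rw [h2]
      have h3 := ih (child x c)
      have h4 : (child x c).1.length = x.1.length + 1 := by simp [child]
      rw [h4] at h3
      exact mul_le_mul_of_nonneg_left h3 p.2.1
    have hset : {ω : Gam.edgeSet → Bool | Surv ω (k + 1) x} = (⋂ c ∈ (Finset.univ : Finset (Fin (br x.1.length))), (E c)ᶜ)ᶜ := by
      ext ω
      simp only [Surv, isOpen_ed, Set.mem_ofPred_eq, Set.mem_compl_iff, Set.mem_iInter, hE,
        Set.mem_inter_iff, not_forall, not_not, Finset.mem_univ, forall_const, exists_prop, true_and]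
      
    have hprod := meas_biInter_of_disjoint p (fun c : Fin (br x.1.length) => Dt (child x c))
      (by
        intro c c' hcc
        exact Dt_disjoint _ _ (child_not_suffix x c c' hcc) (child_not_suffix x c' c hcc.symm))
      (fun c => (E c)ᶜ) (fun c => (hEm c).compl) Finset.univ
    have hmeas : MeasurableSet (⋂ c ∈ (Finset.univ : Finset (Fin (br x.1.length))), (E c)ᶜ) :=
      Finset.measurableSet_biInter _ fun c _ => (hEm' c).compl
    rw [hset, probReal_compl_eq_one_sub hmeas]
    have h5 : μ.real (⋂ c ∈ (Finset.univ : Finset (Fin (br x.1.length))), (E c)ᶜ)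
        = ∏ c : Fin (br x.1.length), (1 - μ.real (E c)) := by
      rw [measureReal_def, hprod, ENNReal.toReal_prod]
      refine Finset.prod_congr rfl fun c _ => ?_
      rw [← measureReal_def, probReal_compl_eq_one_sub (hEm' c)]
    rw [h5]
    refine (phi_rec p hp p.2.2 x.1.length).trans ?_
    have h6 : ∏ c : Fin (br x.1.length), (1 - μ.real (E c)) ≤
        ∏ _c : Fin (br x.1.length), (1 - p * phi (x.1.length + 1)) := by
      refine Finset.prod_le_prod (fun c _ => ?_) (fun c _ => ?_)
      · have : μ.real (E c) ≤ 1 := measureReal_le_one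
        linarith
      · linarith [hprob c]
    rw [Finset.prod_const, Finset.card_univ, Fintype.card_fin] at h6
    linarith

theorem surv_inf_lower (p : unitInterval) (hp : (1 : ℝ) / 25 ≤ p) (x : T) :
    phi x.1.length ≤ (perc Gam.edgeSet p).real (⋂ k, {ω | Surv ω k x}) := by
  have hanti : Antitone (fun k => {ω : Gam.edgeSet → Bool | Surv ω k x}) :=
    antitone_nat_of_succ_le fun k ω h => surv_succ ω k x h
  have ht := tendsto_measure_iInter_atTop (μ := perc Gam.edgeSet p)
    (s := fun k => {ω : Gam.edgeSet → Bool | Surv ω k x})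
    (fun k => (sig_le _ _ (measurable_surv k x)).nullMeasurableSet) hanti ⟨0, by simp⟩
  have ht2 := (ENNReal.tendsto_toReal (measure_ne_top _ _)).comp ht
  exact ge_of_tendsto' ht2 fun k => surv_lower p hp k x

/-- the open subgraph -/
def openGraph {W : Type*} (Γ : SimpleGraph W) (ω : Γ.edgeSet → Bool) : SimpleGraph W where
  Adj x y := IsOpen Γ ω s(x, y)
  symm := ⟨fun x y h => by rw [Sym2.eq_swap]; exact h⟩
  loopless := ⟨fun x h => by
    obtain ⟨h, _⟩ := h
    exact Γ.loopless.irrefl x h⟩

lemma surv_reach (ω : Gam.edgeSet → Bool) (k : ℕ) (x : T) (h : Surv ω k x) :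
    ∃ z : T, z.1.length = x.1.length + k ∧ (openGraph Gam ω).Reachable (x, 0) (z, 0) := by
  induction k generalizing x with
  | zero => exact ⟨x, by simp, SimpleGraph.Reachable.refl _⟩
  | succ k ih =>
    obtain ⟨c, h1, h2⟩ := h
    obtain ⟨z, hz1, hz2⟩ := ih _ h2
    refine ⟨z, ?_, ?_⟩
    · rw [hz1]; simp [child]; omega
    · have hadj : (openGraph Gam ω).Adj (x, 0) (child x c, 0) := h1
      exact hadj.reachable.trans hz2

end Pool.Agent.Work.MP_7e30a6_pr
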