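import Pool.Agent.Work.MP_7e30a6_pr.Perc

open MeasureTheory ProbabilityTheory Filter
open scoped ENNReal

namespace Pool.Agent.Work.MP_7e30a6_pr

/-- state: (block number, position in block) -/
def st : ℕ → ℕ × ℕ
  | 0 => (1, 0)
  | n + 1 => if (st n).2 + 1 < 6 * (st n).1 then ((st n).1, (st n).2 + 1) else ((st n).1 + 1, 0)

/-- branching number at level `n` -/
def br (n : ℕ) : ℕ := if (st n).2 < 5 * (st n).1 then 100 else 1

/-- start of the `j`-th block -/
def start : ℕ → ℕ
  | 0 => 0
  | j + 1 => start j + 6 * (j + 1)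

lemma st_start (j : ℕ) : st (start j) = (j + 1, 0) ∧
    ∀ i < 6 * (j + 1), st (start j + i) = (j + 1, i) := by
  have key : ∀ j, st (start j) = (j + 1, 0) → ∀ i < 6 * (j + 1), st (start j + i) = (j + 1, i) := by
    intro j hj i
    induction i with
    | zero => intro _; simpa using hj
    | succ i ih =>
      intro hi
      have h1 := ih (by omega)
      rw [← Nat.add_assoc, st, h1]
      simp only
      rw [if_pos (by omega)]
  have h0 : ∀ j, st (start j) = (j + 1, 0) := by
    intro j
    induction j with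
    | zero => rfl
    | succ j ih =>
      have h1 := key j ih (6 * (j + 1) - 1) (by omega)
      have h2 : start (j + 1) = (start j + (6 * (j + 1) - 1)) + 1 := by
        rw [start]; omega
      rw [h2, st, h1]
      simp only
      rw [if_neg (by omega)]
  exact ⟨h0 j, key j (h0 j)⟩

lemma st_lt (n : ℕ) : (st n).2 < 6 * (st n).1 ∧ 1 ≤ (st n).1 := by
  induction n with
  | zero => simp [st]
  | succ n ih =>
    rw [st]
    split_ifs with h
    · exact ⟨h, ih.2⟩
    · constructor
      · simp only; omega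
      · simp only; omega

lemma br_pos (n : ℕ) : 0 < br n := by
  unfold br; split_ifs <;> norm_num

lemma br_le (n : ℕ) : br n ≤ 100 := by
  unfold br; split_ifs <;> norm_num

lemma br_start (j : ℕ) : br (start j) = 100 := by
  unfold br
  rw [(st_start j).1]
  simp

lemma br_pathlevel (j i : ℕ) (h1 : 5 * (j + 1) ≤ i) (h2 : i < 6 * (j + 1)) :
    br (start j + i) = 1 := by
  unfold br
  rw [(st_start j).2 i h2]
  simp only
  rw [if_neg (by omega)]

/-- exponent -/
def psi (l : ℕ) : ℕ :=
  if (st l).2 ≤ 5 * (st l).1 then (st l).2 else 30 * (st l).1 - 5 * (st l).2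

/-- lower bound for the survival probability -/
noncomputable def phi (l : ℕ) : ℝ := (1 / 2) ^ (psi l + 1)

lemma phi_pos (l : ℕ) : 0 < phi l := by unfold phi; positivity

lemma phi_le (l : ℕ) : phi l ≤ 1 / 2 := by
  unfold phi
  calc ((1 : ℝ) / 2) ^ (psi l + 1) ≤ (1 / 2) ^ 1 :=
        pow_le_pow_of_le_one (by norm_num) (by norm_num) (by omega)
    _ = 1 / 2 := by norm_num

lemma phi_start (j : ℕ) : phi (start j) = 1 / 2 := by
  unfold phi psi
  rw [(st_start j).1]
  simp

lemma psi_branch (l : ℕ) (h : (st l).2 < 5 * (st l).1) : psi (l + 1) = psi l + 1 := by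
  have h1 := st_lt l
  have h2 : st (l + 1) = ((st l).1, (st l).2 + 1) := by
    rw [st, if_pos (by omega)]
  unfold psi
  rw [h2]
  simp only
  rw [if_pos (by omega), if_pos (by omega)]

lemma psi_path (l : ℕ) (h : ¬ (st l).2 < 5 * (st l).1) : psi (l + 1) + 5 = psi l := by
  have h1 := st_lt l
  by_cases h3 : (st l).2 + 1 < 6 * (st l).1
  · have h2 : st (l + 1) = ((st l).1, (st l).2 + 1) := by
      rw [st, if_pos h3]
    unfold psi
    rw [h2]
    simp only
    rw [if_neg (by omega)]
    split_ifs <;> omega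
  · have h2 : st (l + 1) = ((st l).1 + 1, 0) := by
      rw [st, if_neg h3]
    unfold psi
    rw [h2]
    simp only
    rw [if_pos (by omega)]
    split_ifs <;> omega

lemma one_sub_pow_le (y : ℝ) (h0 : 0 ≤ y) (h1 : y ≤ 1) (n : ℕ) :
    (1 - y) ^ n * (1 + n * y) ≤ 1 := by
  have h2 : 1 + n * y ≤ (1 + y) ^ n := one_add_mul_le_pow (by linarith) n
  calc (1 - y) ^ n * (1 + n * y) ≤ (1 - y) ^ n * (1 + y) ^ n := by
        gcongr
    _ = ((1 - y) * (1 + y)) ^ n := by rw [mul_pow]
    _ ≤ 1 := pow_le_one₀ (by nlinarith) (by nlinarith)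

lemma phi_rec (p : ℝ) (hp : 1 / 25 ≤ p) (hp1 : p ≤ 1) (l : ℕ) :
    phi l ≤ 1 - (1 - p * phi (l + 1)) ^ (br l) := by
  have hl := phi_pos l
  have hl2 := phi_le l
  have hl' := phi_pos (l + 1)
  have hl2' := phi_le (l + 1)
  unfold br
  split_ifs with h
  · have h1 : phi (l + 1) = phi l / 2 := by
      unfold phi
      rw [psi_branch l h]
      rw [pow_succ (1 / 2 : ℝ) (psi l + 1)]
      ring
    set y := p * phi (l + 1) with hy
    have hy0 : 0 ≤ y := by positivity
    have hy1 : y ≤ 1 := by nlinarith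
    have hy2 : phi l / 50 ≤ y := by
      rw [hy, h1]; nlinarith
    have h3 := one_sub_pow_le y hy0 hy1 100
    have h4 : 0 ≤ (1 - y) ^ 100 := pow_nonneg (by linarith) _
    have h5 : (1 - y) ^ 100 * (1 + 2 * phi l) ≤ 1 := by
      refine le_trans ?_ h3
      refine mul_le_mul_of_nonneg_left ?_ h4
      push_cast
      linarith
    clear h3
    generalize (1 - y) ^ 100 = z at h4 h5 ⊢
    nlinarith
  · have h1 : phi (l + 1) = 32 * phi l := by
      unfold phi
      rw [← psi_path l h]
      ring
    rw [pow_one, h1]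
    nlinarith

/-- valid address -/
def Valid : List ℕ → Prop
  | [] => True
  | c :: x => c < br x.length ∧ Valid x

/-- vertices of the tree -/
abbrev T : Type := {x : List ℕ // Valid x}

/-- the tree -/
def tree : SimpleGraph T where
  Adj x y := (∃ c, y.1 = c :: x.1) ∨ (∃ c, x.1 = c :: y.1)
  symm := ⟨fun x y h => h.symm⟩
  loopless := ⟨fun x h => by
    rcases h with ⟨c, h⟩ | ⟨c, h⟩ <;>
    · have := congrArg List.length h
      simp at this⟩

/-- the child -/
def child (x : T) (c : Fin (br x.1.length)) : T := ⟨c.1 :: x.1, c.2, x.2⟩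

/-- the parent -/
def par (x : T) : T := ⟨x.1.tail, by
  obtain ⟨l, hl⟩ := x
  cases l with
  | nil => exact hl
  | cons c l => exact hl.2⟩

lemma tree_adj_child (x : T) (c : Fin (br x.1.length)) : tree.Adj x (child x c) :=
  Or.inl ⟨c.1, rfl⟩

lemma adj_cases {x y : T} (h : tree.Adj x y) : (∃ c, y = child x c) ∨ (y = par x) := by
  rcases h with ⟨c, h⟩ | ⟨c, h⟩
  · left
    have hv := y.2
    rw [h] at hv
    exact ⟨⟨c, hv.1⟩, Subtype.ext h⟩
  · right
    refine Subtype.ext ?_
    simp [par, h]

/-- the integer line -/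
def intLine : SimpleGraph ℤ where
  Adj m n := |m - n| = 1
  symm := ⟨fun m n h => by rw [abs_sub_comm]; exact h⟩
  loopless := ⟨fun m h => by simp at h⟩

lemma intLine_adj_cases {m n : ℤ} (h : intLine.Adj m n) : n = m + 1 ∨ n = m - 1 := by
  change |m - n| = 1 at h
  rw [abs_eq (by norm_num)] at h
  omega

/-- product with the line -/
abbrev Gam : SimpleGraph (T × ℤ) := SimpleGraph.boxProd tree intLine

end Pool.Agent.Work.MP_7e30a6_pr
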